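import Pool.Agent.helper71.LB.C

set_option autoImplicit false

namespace Pool.Agent.helper20.LB

theorem O_mono {f : ℤ → ℤ} (hf : Step f) {x y : ℤ} (h : x ≤ y) : f x ≤ f y ∧ f y ≤ f x + (y - x) := by
  induction y, h using Int.le_induction with
  | base => constructor <;> omega
  | succ m hm ih =>
    have := hf m
    constructor <;> omega

/-- a good column has a constant sign -/
theorem O_sign {f : ℤ → ℤ} (hf : Step f) {c H D : ℤ} (hHD : H ≤ D) (hgood : ∀ r, H ≤ r → r ≤ D → F f c r ≠ 0) :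
    (∀ r, H ≤ r → r ≤ D → 0 < F f c r) ∨ (∀ r, H ≤ r → r ≤ D → F f c r < 0) := by
  have hstep : ∀ r, F f c (r + 1) ≤ F f c r + 1 ∧ F f c r ≤ F f c (r + 1) + 1 := by
    intro r
    have h1 := hf (c + r)
    have h2 := hf (c - (r + 1))
    have e1 : c - (r + 1) + 1 = c - r := by ring
    have e2 : c + (r + 1) = c + r + 1 := by ring
    rw [e1] at h2
    unfold F
    rw [e2]
    constructor <;> omega
  rcases lt_trichotomy (F f c H) 0 with h | h | h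
  · right
    intro r hr
    induction r, hr using Int.le_induction with
    | base => intro _; exact h
    | succ m hm ih =>
      intro hm1
      have := ih (by omega)
      have := hstep m
      have := hgood (m + 1) (by omega) hm1
      omega
  · exact absurd h (hgood H le_rfl hHD)
  · left
    intro r hr
    induction r, hr using Int.le_induction with
    | base => intro _; exact h
    | succ m hm ih =>
      intro hm1
      have := ih (by omega)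
      have := hstep m
      have := hgood (m + 1) (by omega) hm1
      omega

/-- no three alternating good columns -/
theorem O_no3 {f : ℤ → ℤ} (hf : Step f) {n : ℤ} {E : ℕ} (hE : Bd f n E) {D L : ℤ} (hL : 0 ≤ L)
    (hD : L + 6 * E + 8 < D) (hn : D + L + D ≤ n) {y1 y2 y3 : ℤ} (h1 : D ≤ y1) (h12 : y1 < y2) (h23 : y2 < y3)
    (h3 : y3 ≤ D + L)
    (p1 : ∀ r, 2 * (E : ℤ) + 4 ≤ r → r ≤ D → 0 < F f y1 r)
    (p2 : ∀ r, 2 * (E : ℤ) + 4 ≤ r → r ≤ D → F f y2 r < 0)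
    (p3 : ∀ r, 2 * (E : ℤ) + 4 ≤ r → r ≤ D → 0 < F f y3 r) : False := by
  have a1 := alt_bound hf hE (H := 2 * (E : ℤ) + 4) (D := D) (by omega) (by omega) h12 h1 (by omega) p1 p2
  have a2 := alt_bound (co_step hf) (co_Bd hE) (H := 2 * (E : ℤ) + 4) (D := D) (by omega) (by omega) h23
    (by omega) (by omega)
    (fun r hr hr' => by rw [co_F]; have := p2 r hr hr'; omega)
    (fun r hr hr' => by rw [co_F]; have := p3 r hr hr'; omega)
  unfold co at a2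
  have m1 := O_mono hf (x := y1) (y := y2) h12.le
  have m2 := O_mono hf (x := y2 - D) (y := y3 - D) (by omega)
  omega

theorem one_sign {f : ℤ → ℤ} (hf : Step f) {n : ℤ} {E : ℕ} (hE : Bd f n E) {D L : ℤ} (hL : 0 ≤ L)
    (hD : L + 6 * E + 8 < D) (hn : D + L + D ≤ n) :
    ∃ g a b, (g = f ∨ g = co f) ∧ D ≤ a ∧ b ≤ D + L ∧ L ≤ 2 * (b - a + 1) ∧ 2 * (b - a) ≤ L ∧
      ∀ c, a ≤ c → c ≤ b → (∀ r, 2 * (E : ℤ) + 4 ≤ r → r ≤ D → F g c r ≠ 0) →
        ∀ r, 2 * (E : ℤ) + 4 ≤ r → r ≤ D → 0 < F g c r := by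
  have hHD : 2 * (E : ℤ) + 4 ≤ D := by omega
  -- reduction to one interval
  have key : ∀ a b : ℤ, D ≤ a → b ≤ D + L → L ≤ 2 * (b - a + 1) → 2 * (b - a) ≤ L →
      ¬ ((∃ y, a ≤ y ∧ y ≤ b ∧ ∀ r, 2 * (E : ℤ) + 4 ≤ r → r ≤ D → 0 < F f y r) ∧
        (∃ y, a ≤ y ∧ y ≤ b ∧ ∀ r, 2 * (E : ℤ) + 4 ≤ r → r ≤ D → F f y r < 0)) →
      ∃ g a b, (g = f ∨ g = co f) ∧ D ≤ a ∧ b ≤ D + L ∧ L ≤ 2 * (b - a + 1) ∧ 2 * (b - a) ≤ L ∧
      ∀ c, a ≤ c → c ≤ b → (∀ r, 2 * (E : ℤ) + 4 ≤ r → r ≤ D → F g c r ≠ 0) →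
        ∀ r, 2 * (E : ℤ) + 4 ≤ r → r ≤ D → 0 < F g c r := by
    intro a b ha hb h1 h2 hno
    by_cases hneg : ∃ y, a ≤ y ∧ y ≤ b ∧ ∀ r, 2 * (E : ℤ) + 4 ≤ r → r ≤ D → F f y r < 0
    · refine ⟨co f, a, b, Or.inr rfl, ha, hb, h1, h2, ?_⟩
      intro c hc hc' hg
      have hg' : ∀ r, 2 * (E : ℤ) + 4 ≤ r → r ≤ D → F f c r ≠ 0 := by
        intro r hr hr' h0
        apply hg r hr hr'
        rw [co_F, h0]; rfl
      rcases O_sign hf hHD hg' with h | h
      · exact absurd ⟨⟨c, hc, hc', h⟩, hneg⟩ hno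
      · intro r hr hr'
        rw [co_F]
        have := h r hr hr'
        omega
    · refine ⟨f, a, b, Or.inl rfl, ha, hb, h1, h2, ?_⟩
      intro c hc hc' hg
      rcases O_sign hf hHD hg with h | h
      · exact h
      · exact absurd ⟨c, hc, hc', h⟩ hneg
  by_cases hI : ((∃ y, D ≤ y ∧ y ≤ D + L / 2 ∧ ∀ r, 2 * (E : ℤ) + 4 ≤ r → r ≤ D → 0 < F f y r) ∧
        (∃ y, D ≤ y ∧ y ≤ D + L / 2 ∧ ∀ r, 2 * (E : ℤ) + 4 ≤ r → r ≤ D → F f y r < 0))
  · by_cases hJ : ((∃ y, D + L / 2 + 1 ≤ y ∧ y ≤ D + L ∧ ∀ r, 2 * (E : ℤ) + 4 ≤ r → r ≤ D → 0 < F f y r) ∧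
        (∃ y, D + L / 2 + 1 ≤ y ∧ y ≤ D + L ∧ ∀ r, 2 * (E : ℤ) + 4 ≤ r → r ≤ D → F f y r < 0))
    · exfalso
      obtain ⟨⟨yp, p1, p2, p3⟩, ⟨yn, n1, n2, n3⟩⟩ := hI
      obtain ⟨⟨zp, q1, q2, q3⟩, ⟨zn, m1, m2, m3⟩⟩ := hJ
      rcases lt_trichotomy yp yn with h | h | h
      · exact O_no3 hf hE hL hD hn p1 h (by omega) q2 p3 n3 q3
      · rw [h] at p3
        have e1 := p3 _ le_rfl hHD
        have e2 := n3 _ le_rfl hHD
        omega
      · refine O_no3 (co_step hf) (co_Bd hE) hL hD hn n1 h (y3 := zn) (by omega) m2 ?_ ?_ ?_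
        · intro r hr hr'
          rw [co_F]; have := n3 r hr hr'; omega
        · intro r hr hr'
          rw [co_F]; have := p3 r hr hr'; omega
        · intro r hr hr'
          rw [co_F]; have := m3 r hr hr'; omega
    · exact key (D + L / 2 + 1) (D + L) (by omega) le_rfl (by omega) (by omega) hJ
  · exact key D (D + L / 2) le_rfl (by omega) (by omega) (by omega) hI

end Pool.Agent.helper20.LB
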